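import Pool.Agent.H49.D.MTh

/-!
# The Moebius function against the von Mangoldt function along almost every slope

The sum of the problem is `∑_{n ≤ X} μ(n) Λ(⌊α n⌋ + h)` with `α = 1`, `h = -1`. For almost every real `α > 0` these sums, for
all integers `h`, are smaller than `X` by every power of the logarithm. The same holds for `⌊α n ^ c⌋`, every fixed
`c > 0`, and for the products of the values of arbitrary sequences of logarithmic growth (for instance
`Λ(m + h) b(m)`, `b` bounded) along almost every tuple of slopes.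

Method. By Plancherel's theorem in `log α` the mean square over the slopes is controlled by the sums
`∑_{n ≤ N} μ(n) n ^ {i τ}`, `|τ| ≤ N ^ A` (Vinogradov's mean value theorem, zero free region of Korobov and Vinogradov
type), one factor after the other; this is the library `Pool.Agent.Y957.VK` (starting files), for bounded
sequences. New: the sequences of logarithmic growth, by partial summation with the product of the (monotone) weights.
-/

set_option autoImplicit false

namespace Pool.Agent.Results.MP_0bfb7f_nt.AlmostEverySlope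

open Finset Filter Topology MeasureTheory

/-- (1) For every `c > 0` and almost every `α > 0`: for all integers `h` and all `K`,
`∑_{n ≤ N} μ(n) Λ(⌊α n ^ c⌋ + h) = o(N / log ^ K N)`. (`α = c = 1`, `h = -1` is the sum of the problem; `Λ` is `0` at
the integers `≤ 0`.)

(2) Let `a 1, ..., a k` be arbitrary sequences with `|a i (m)| ≤ M log ^ T (m + 3)` and let `c i > 0`. For almost every
`(α 1, ..., α k)` with positive coordinates and all `K`,
`∑_{n ≤ N} μ(n) ∏ i, a i (⌊α i n ^ (c i)⌋) = o(N / log ^ K N)`. -/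
theorem result :
    (∀ c : ℝ, 0 < c → ∀ᵐ α : ℝ, 0 < α → ∀ (h : ℤ) (K : ℕ),
      Tendsto (fun N : ℕ => (Real.log N) ^ K / N *
        |∑ n ∈ Icc 1 N, ((ArithmeticFunction.moebius n : ℤ) : ℝ) *
          ArithmeticFunction.vonMangoldt ((⌊α * (n : ℝ) ^ c⌋₊ : ℤ) + h).toNat|) atTop (𝓝 0)) ∧
    ∀ (k T : ℕ) (a : Fin k → ℕ → ℂ) (M : ℝ), (∀ i n, ‖a i n‖ ≤ M * Real.log (n + 3) ^ T) →
      ∀ c : Fin k → ℝ, (∀ i, 0 < c i) →
      ∀ᵐ α ∂((volume : Measure (Fin k → ℝ)).restrict {α | ∀ i, 0 < α i}), ∀ K : ℕ,
        Tendsto (fun N : ℕ => (Real.log N) ^ K / N *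
          ‖∑ n ∈ Icc 1 N, ((ArithmeticFunction.moebius n : ℤ) : ℂ) * ∏ i, a i ⌊α i * (n : ℝ) ^ (c i)⌋₊‖)
          atTop (𝓝 0) :=
  ⟨fun c hc => Pool.Agent.H49.MT.mu_lambda_slopes c hc,
    fun k T a M ha c hc => Pool.Agent.H49.MT.mu_slopes k T a M ha c hc⟩

end Pool.Agent.Results.MP_0bfb7f_nt.AlmostEverySlope
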