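import Pool.Agent.H49.D.MTf

/-!
# Correlations of the Moebius function and the primes: almost all shifts in every residue class

The shift `1` of the problem is replaced by the shifts `h ≡ c` modulo `q`, for EVERY residue class `c` modulo `q` (for
instance `h ≡ 1`, `h = 1 + q m`), where `q` may be almost as large as `N`: for all `q ≤ N ^ (2 / 3 - ρ)` outside of the
multiples of a sparse set of (exceptional) moduli, and for almost all `q ≤ N / log ^ c N`. So the family of shifts
may have only a power of `log N` members. The weights are arbitrary, of size at most a power of `log N`, for instance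
the von Mangoldt function.

The method is that of the library `Pool.Agent.Y883.T4` (starting files): large values of the exponential sums over
the Moebius function at frequencies which are close to each other modulo `1 / q`, Vinogradov's bound and Davenport's
theorem.
-/

set_option autoImplicit false

namespace Pool.Agent.Results.MP_0bfb7f_nt.EveryResidueClass

open Finset

/-- The Moebius function on the integers, `0` at the integers `m ≤ 0`, with complex values. -/
noncomputable def mu (m : ℤ) : ℂ := if 1 ≤ m then ((ArithmeticFunction.moebius m.toNat : ℤ) : ℂ) else 0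

open Classical in
/-- For all offsets `|c| ≤ B N` (hence for all residue classes modulo `q`) and all families of at most `log ^ T N`
weights `θ_l`, bounded by `log ^ T N` (for example `θ_l = Λ`), and multipliers `α_l ≥ 1` (for example `α_l = 1`): all but
`N / (q log ^ A N)` of the shifts `h = c + q m`, `1 ≤ m ≤ N / q`, satisfy
`|∑_{n ≤ x} θ_l(n) μ(α_l n + h)| ≤ N / log ^ A N` for all `l` and all `x` with `α_l x ≤ B N`. -/
def Good (A B T N q : ℕ) : Prop := ∀ c : ℤ, |c| ≤ B * N → ∀ J : ℕ, (J : ℝ) ≤ Real.log N ^ T →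
  ∀ (α : ℕ → ℕ) (θ : ℕ → ℕ → ℂ), (∀ l < J, 1 ≤ α l) →
  (∀ l < J, ∀ n, 1 ≤ n → α l * n ≤ B * N → ‖θ l n‖ ≤ Real.log N ^ T) →
  (((Icc 1 (N / q)).filter (fun m : ℕ => ¬ ∀ l < J, ∀ x : ℕ, α l * x ≤ B * N →
    ‖∑ n ∈ Icc 1 x, θ l n * mu (((α l * n : ℕ) : ℤ) + (c + q * m))‖ ≤ N / Real.log N ^ A)).card : ℝ) ≤
    N / (q * Real.log N ^ A)

/-- No member of `D` divides `q`. -/
def Free (D : Finset ℕ) (q : ℕ) : Prop := ∀ d ∈ D, ¬ d ∣ q

open Classical in
/-- Let `A`, `B`, `T` and `ρ > 0` be fixed. There are `c` and `N₀` such that for all `N ≥ N₀` there is a finite set `D` of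
integers larger than `log ^ A N`, with at most `X ^ ρ` members up to `X` for all `X ≥ 1`, such that

* all the moduli `q ≤ N ^ (2 / 3 - ρ)` without a divisor in `D` are good (for EVERY residue class modulo `q`);
* for every `X ≤ N` at most `X ^ 2 log ^ c N / N` of the moduli `q ≤ X` without a divisor in `D` are not good. -/
theorem result (A B T : ℕ) (ρ : ℝ) (hρ : 0 < ρ) :
    ∃ c N₀ : ℕ, ∀ N : ℕ, N₀ ≤ N → ∃ D : Finset ℕ,
      (∀ d ∈ D, Real.log N ^ A < (d : ℝ)) ∧
      (∀ X : ℝ, 1 ≤ X → ((D.filter (fun d : ℕ => (d : ℝ) ≤ X)).card : ℝ) ≤ X ^ ρ) ∧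
      (∀ q : ℕ, 1 ≤ q → (q : ℝ) ≤ (N : ℝ) ^ (2 / 3 - ρ) → Free D q → Good A B T N q) ∧
      ∀ X : ℕ, X ≤ N → (((Icc 1 X).filter (fun q => Free D q ∧ ¬ Good A B T N q)).card : ℝ) * N ≤
        (X : ℝ) ^ 2 * Real.log N ^ c := by
  obtain ⟨c, N₀, h⟩ := Pool.Agent.H49.MT.mu_classes B A T ρ hρ
  have hG : ∀ N q : ℕ, Pool.Agent.H49.MT.GoodM B N A T q ↔ Good A B T N q := fun N q => Iff.rfl
  refine ⟨c, N₀, fun N hN => ?_⟩
  obtain ⟨D, h1, h2, h3, h4⟩ := h N hN
  refine ⟨D, h1, h2, fun q hq1 hq2 hq3 => (hG N q).1 (h3 q hq1 hq2 hq3), fun X hX => ?_⟩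
  apply h4 X hX
  intro q hq
  rw [mem_filter, mem_Icc] at hq
  exact ⟨hq.1.1, hq.1.2, hq.2.1, fun h5 => hq.2.2 ((hG N q).1 h5)⟩

end Pool.Agent.Results.MP_0bfb7f_nt.EveryResidueClass
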