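import Pool.Agent.H49.D.MTe

/-!
# Correlations of the Moebius function and the primes outside a power-saving set of shifts

At arbitrarily large scales all but `N ^ (1 - δ)` of the shifts `h ≤ D N` satisfy the bound of the problem, uniformly in
the cut-off `X ≤ N`, and with an arbitrary weight of modulus at most one. Davenport's bound gives
`N / (log N) ^ C` exceptional shifts.

Method. For the Liouville function the estimate is a theorem of the library (the energy of the Liouville function
on the major arcs to moduli up to a power of `N` at suitable scales, Turan-Kubilius inequality for the multiples of the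
primes from a long range, classes of the shifts modulo the product of the small primes). The Moebius function is
`μ(m) = λ(m) ∑_{d² | m} μ(d)`: the part `d ≤ D` is treated class by class modulo `d²`, and the tail `d > D` is bounded
for every shift with the Brun-Titchmarsh inequality modulo `d²`.
-/

set_option autoImplicit false

namespace Pool.Agent.Results.MP_0bfb7f_nt.PowerSavingShifts

open Finset

open Classical in
/-- For all `D` and `ε, ε' > 0` there is `δ > 0` such that for arbitrarily large `R` and all `N` with
`R ^ ε' ≤ N ≤ R`: for every `a ≤ D N` and every weight `b` of modulus at most one, all but `N ^ (1 - δ)` of the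
`h ≤ D N` satisfy `|∑ n ≤ X, b n Λ(n + a) μ(n + h)| ≤ ε N` for all `X ≤ N`. -/
theorem result (D : ℕ) (ε ε' : ℝ) (hε : 0 < ε) (hε' : 0 < ε') :
    ∃ δ : ℝ, 0 < δ ∧ ∀ R₀ : ℕ, ∃ R : ℕ, R₀ ≤ R ∧ ∀ N : ℕ, (R : ℝ) ^ ε' ≤ N → N ≤ R →
      ∀ a : ℕ, a ≤ D * N → ∀ b : ℕ → ℂ, (∀ n, ‖b n‖ ≤ 1) →
        (((Icc 1 (D * N)).filter (fun h => ∃ X ≤ N,
          ε * N < ‖∑ n ∈ Icc 1 X, b n * ((ArithmeticFunction.vonMangoldt (n + a) : ℝ) : ℂ) *
              ((ArithmeticFunction.moebius (n + h) : ℤ) : ℂ)‖)).card : ℝ) ≤ (N : ℝ) ^ (1 - δ) :=
  Pool.Agent.H49.MT.mu_power D ε ε' hε hε'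

end Pool.Agent.Results.MP_0bfb7f_nt.PowerSavingShifts
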