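import Pool.Agent.H49.D.MTd

/-!
# Correlations of the Moebius function and the primes: almost all shifts in windows shorter than `log N`

The sum of the problem has shift `1`. Here the shift runs over a window, and the window is shorter than the logarithm:
`(log N) ^ (1 - η) ≤ H`. The primes have density `1 / log N`, so that `H = log N` is the natural limit of the mean
square method (and of the method of Matomäki and Radziwiłł over short intervals, since a shorter window contains a prime
for few `n` only).

Method. For the Liouville function the estimate is a theorem of the library (Turan-Kubilius inequality in the window,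
covariances along the forms `m ↦ p m - h` by the fundamental lemma of the sieve, theorem of Matomäki, Radziwiłł and
Tao). The Moebius function is `μ(m) = λ(m) ∑_{d² | m} μ(d)`: the part `d ≤ D` is treated class by class modulo `d²`
(the classes go into the weight), and the tail `d > D` is bounded with the Brun-Titchmarsh inequality modulo `d²`
and the estimate `φ(d²) ≥ d √(d / 2)`.
-/

set_option autoImplicit false

namespace Pool.Agent.Results.MP_0bfb7f_nt.WindowsBelowLog

open Finset

/-- For every `ε > 0` there are `η > 0` and `N₀` such that for `N ≥ N₀`, `(log N) ^ (1 - η) ≤ H ≤ N`, `a ≤ N`, `B ≤ N`, every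
weight `b` of modulus at most one and all cut-offs `X 1, ..., X H ≤ N`:
`∑ h ≤ H, |∑ n ≤ X h, b n Λ(n + a) μ(n + B + h)| ≤ ε H N`. -/
theorem result (ε : ℝ) (hε : 0 < ε) :
    ∃ η : ℝ, 0 < η ∧ ∃ N₀ : ℕ, ∀ N H : ℕ, N₀ ≤ N → Real.log N ^ (1 - η) ≤ H → H ≤ N →
      ∀ a : ℕ, a ≤ N → ∀ B : ℕ, B ≤ N →
        ∀ b : ℕ → ℂ, (∀ n, ‖b n‖ ≤ 1) → ∀ X : ℕ → ℕ, (∀ h, X h ≤ N) →
          ∑ h ∈ Icc 1 H, ‖∑ n ∈ Icc 1 (X h), b n * ((ArithmeticFunction.vonMangoldt (n + a) : ℝ) : ℂ) *
              ((ArithmeticFunction.moebius (n + (B + h)) : ℤ) : ℂ)‖ ≤ ε * H * N :=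
  Pool.Agent.H49.MT.mu_window ε hε

end Pool.Agent.Results.MP_0bfb7f_nt.WindowsBelowLog
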